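import Pool.Agent.K3h34.HP.Stm
import Pool.Agent.Y972.HB.NR
import Pool.Agent.H637R2.Leo.Split

/-!
# Project HP, brick OBS3: homomorphisms from rings of integers to prime fields
-/

set_option autoImplicit false

namespace Pool.Agent.K3h64.HP

open Polynomial NumberField

/-- an integral primitive element -/
lemma exists_prim (L : Type) [Field L] [NumberField L] :
    ∃ α : 𝓞 L, IntermediateField.adjoin ℚ {(α : L)} = ⊤ := by
  obtain ⟨α0, hα0⟩ := Field.exists_primitive_element ℚ L
  obtain ⟨m, hm0, hm⟩ := ((IsFractionRing.isAlgebraic_iff ℤ ℚ L).2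
    (Algebra.IsAlgebraic.isAlgebraic (R := ℚ) α0)).exists_integral_multiple
  obtain ⟨α, hαc⟩ : ∃ α : 𝓞 L, (α : L) = m • α0 := ⟨⟨_, hm⟩, rfl⟩
  refine ⟨α, ?_⟩
  rw [hαc, eq_top_iff, ← hα0, IntermediateField.adjoin_simple_le_iff]
  have h1 : α0 = (m : L)⁻¹ * (m • α0) := by
    rw [zsmul_eq_mul, ← mul_assoc, inv_mul_cancel₀ (by exact_mod_cast hm0), one_mul]
  have h2 : (m : L)⁻¹ * (m • α0) ∈ IntermediateField.adjoin ℚ {(m • α0)} :=
    mul_mem (inv_mem (intCast_mem _ _)) (IntermediateField.mem_adjoin_simple_self _ _)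
  rwa [← h1] at h2

lemma inf_of_dv {S : Set ℕ} (h : Pool.Agent.Y214.HB.Dv S) (m : ℕ) : ∃ p ∈ S, m < p := by
  by_contra hcon
  push Not at hcon
  apply h
  apply summable_of_hasFiniteSupport
  refine (Set.finite_Iic m).subset fun k hk => ?_
  have hk' : k ∈ S := by
    by_contra hkS
    exact hk (Set.indicator_of_notMem hkS _)
  exact hcon k hk'

lemma fin_homs (L : Type) [Field L] [NumberField L] (p : ℕ) [Fact p.Prime] :
    Finite (𝓞 L →+* ZMod p) := by
  let b := RingOfIntegers.basis L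
  refine Finite.of_injective (fun (φ : 𝓞 L →+* ZMod p) i => φ (b i)) ?_
  intro φ ψ h
  have h1 : φ.toAddMonoidHom.toIntLinearMap = ψ.toAddMonoidHom.toIntLinearMap := by
    apply b.ext
    intro i
    exact congrFun h i
  apply RingHom.ext
  intro x
  exact DFunLike.congr_fun h1 x

end Pool.Agent.K3h64.HP

namespace Pool.Agent.K3h34.HP

open Polynomial NumberField
open Pool.Agent.K3h64.HP (exists_prim inf_of_dv fin_homs)

theorem t_OBS3 : S_OBS3 := by
  intro L _ _
  refine ⟨fun h2 m => ?_, fun m => ?_, fun h1 p hp => ?_⟩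
  · obtain ⟨α, hα⟩ := exists_prim L
    set g : ℤ[X] := minpoly ℤ α with hg
    have hint : IsIntegral ℤ (α : L) := α.2
    have hgL : g = minpoly ℤ (α : L) := by
      rw [hg]
      exact (minpoly.algebraMap_eq RingOfIntegers.coe_injective α).symm
    have hmap : g.map (Int.castRingHom ℚ) = minpoly ℚ (α : L) := by
      rw [hgL]
      exact (minpoly.isIntegrallyClosed_eq_field_fractions' ℚ hint).symm
    have hintQ : IsIntegral ℚ (α : L) := hint.tower_top
    have hdeg : 2 ≤ g.natDegree := by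
      have h3 := IntermediateField.adjoin.finrank hintQ
      rw [hα, IntermediateField.finrank_top'] at h3
      have h4 : (g.map (Int.castRingHom ℚ)).natDegree = g.natDegree :=
        natDegree_map_eq_of_injective (RingHom.injective_int _) g
      rw [hmap] at h4
      omega
    have hirr : Irreducible (g.map (Int.castRingHom ℚ)) := by
      rw [hmap]
      exact minpoly.irreducible hintQ
    obtain ⟨p, ⟨hp, -, hr⟩, hmp⟩ := inf_of_dv (Pool.Agent.Y972.HB.t_NR g hdeg hirr) m
    refine ⟨p, hmp, hp, ?_⟩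
    have : IsEmpty (𝓞 L →+* ZMod p) := by
      refine ⟨fun φ => ?_⟩
      have : Fact p.Prime := ⟨hp⟩
      obtain ⟨w, hw⟩ := ZMod.intCast_surjective (φ α)
      apply hr w
      rw [← ZMod.intCast_zmod_eq_zero_iff_dvd]
      have h5 : φ (aeval α g) = 0 := by rw [hg, minpoly.aeval, map_zero]
      rw [aeval_def, hom_eval₂] at h5
      have h6 : φ.comp (algebraMap ℤ (𝓞 L)) = Int.castRingHom (ZMod p) := RingHom.ext_int _ _
      rw [h6, ← hw] at h5
      have h7 : ((g.eval w : ℤ) : ZMod p) = eval₂ (Int.castRingHom (ZMod p)) (w : ZMod p) g := by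
        have h8 := hom_eval₂ g (RingHom.id ℤ) (Int.castRingHom (ZMod p)) w
        rw [eval₂_id] at h8
        simpa only [RingHom.comp_id, eq_intCast] using h8
      rw [h7]
      exact h5
    exact Nat.card_of_isEmpty
  · obtain ⟨q, hq, hqN, ⟨φ⟩⟩ := Pool.Agent.H637R2.Leo.exists_hom L (Nat.factorial m)
      (Nat.factorial_ne_zero m)
    have : Fact q.Prime := ⟨hq⟩
    refine ⟨q, ?_, hq, ?_⟩
    · by_contra hcon
      exact hqN ((hq.dvd_factorial).2 (not_lt.1 hcon))
    · have : Finite (𝓞 L →+* ZMod q) := fin_homs L q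
      have : Nonempty (𝓞 L →+* ZMod q) := ⟨φ⟩
      exact Nat.card_pos
  · have : Fact p.Prime := ⟨hp⟩
    have hsurj : Function.Surjective (algebraMap ℤ (𝓞 L)) := by
      intro x
      have h3 : (⊥ : Subalgebra ℚ L) = ⊤ := Subalgebra.bot_eq_top_of_finrank_eq_one h1
      have h4 : (x : L) ∈ (⊥ : Subalgebra ℚ L) := by rw [h3]; trivial
      obtain ⟨r, hr⟩ := Algebra.mem_bot.1 h4
      have h5 : IsIntegral ℤ (algebraMap ℚ L r) := by rw [hr]; exact x.2
      have h6 : IsIntegral ℤ r := (isIntegral_algebraMap_iff (algebraMap ℚ L).injective).1 h5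
      obtain ⟨k, hk⟩ := IsIntegrallyClosed.isIntegral_iff.1 h6
      refine ⟨k, RingOfIntegers.ext ?_⟩
      rw [← hr, ← hk]
      simp
    let e : ℤ ≃+* 𝓞 L := RingEquiv.ofBijective (algebraMap ℤ (𝓞 L))
      ⟨FaithfulSMul.algebraMap_injective ℤ (𝓞 L), hsurj⟩
    have hu : ∀ φ : 𝓞 L →+* ZMod p, φ = (Int.castRingHom (ZMod p)).comp (e.symm : 𝓞 L →+* ℤ) := by
      intro φ
      apply RingHom.ext
      intro x
      obtain ⟨k, rfl⟩ := hsurj x
      have h7 : e.symm (algebraMap ℤ (𝓞 L) k) = k := e.symm_apply_apply k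
      rw [RingHom.comp_apply]
      change _ = Int.castRingHom (ZMod p) (e.symm (algebraMap ℤ (𝓞 L) k))
      rw [h7]
      simp
    rw [Nat.card_eq_one_iff_unique]
    exact ⟨⟨fun a b => (hu a).trans (hu b).symm⟩,
      ⟨(Int.castRingHom (ZMod p)).comp (e.symm : 𝓞 L →+* ℤ)⟩⟩

end Pool.Agent.K3h34.HP
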